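import Pool.Agent.H60.LC.B

set_option autoImplicit false
open Complex ComplexConjugate Finset Filter Topology

namespace Pool.Agent.H60.LC

open Pool.Agent.H.MP_51cccb_an

noncomputable def c (k : ℕ) : ℂ := ∑' j, a j * lam j ^ k
noncomputable def γ (k : ℕ) : ℂ := (1 / k + c k) / 2
noncomputable def f (z : ℂ) : ℂ := z / (1 - z) * exp (P z)

lemma η3 (j : ℕ) : 0 ≤ 1 - η j := by linarith [η1 j, θ1 j]

lemma al (j k : ℕ) : ‖a j * lam j ^ k‖ ≤ η j * (1 - η j) ^ k := by
  rw [norm_mul, norm_pow, lam1]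
  exact mul_le_mul_of_nonneg_right (by linarith [a1 j, η0 j]) (pow_nonneg (η3 j) k)

lemma al' (j k : ℕ) : ‖a j * lam j ^ k‖ ≤ η j := (al j k).trans
  (mul_le_of_le_one_right (η0 j).le (pow_le_one₀ (η3 j) (by linarith [η0 j])))

lemma c_sum (k : ℕ) : Summable fun j => a j * lam j ^ k :=
  Summable.of_norm_bounded geo.summable fun j => (al' j k).trans (η2 j)

lemma c_le (k : ℕ) : ‖c k‖ ≤ 8 / 7 := tsum_of_norm_bounded geo fun j => (al' j k).trans (η2 j)

lemma P_ser {z : ℂ} (hz : ‖z‖ < 1) : HasSum (fun k => c (k + 1) * z ^ (k + 1)) (P z) := by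
  have s : Summable fun p : ℕ × ℕ => a p.1 * lam p.1 ^ (p.2 + 1) * z ^ (p.2 + 1) :=
    Summable.of_norm_bounded (geo.summable.mul_of_nonneg
      (summable_geometric_of_lt_one (norm_nonneg z) hz) (fun _ => by positivity)
      fun _ => by positivity) fun p => by
        rw [norm_mul, norm_pow]
        exact mul_le_mul ((al' _ _).trans (η2 _))
          (pow_le_pow_of_le_one (norm_nonneg z) hz.le (by omega)) (by positivity) (by positivity)
  have h1 := s.hasSum.prod_fiberwise (g := fun j => a j * (lam j * z / u j z)) fun j => by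
    have := ((hasSum_geometric_of_norm_lt_one ((lz hz j).2.trans_lt hz)).mul_left
      (lam j * z)).mul_left (a j)
    simp only [u, div_eq_mul_inv]
    refine (congrArg (HasSum · _) (funext fun k => ?_)).mp this
    ring
  have h2 := ((Equiv.prodComm ℕ ℕ).hasSum_iff.2 s.hasSum).prod_fiberwise
    (g := fun k => c (k + 1) * z ^ (k + 1)) fun k => (c_sum (k + 1)).hasSum.mul_right _
  rwa [← h1.tsum_eq] at h2

lemma n1 {z : ℂ} (hz : ‖z‖ < 1) : 1 - z ≠ 0 := fun c => by
  rw [← sub_eq_zero.1 c] at hz; simp at hz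

lemma γ_ser {z : ℂ} (hz : ‖z‖ < 1) : ∃ s : ℂ, HasSum (fun k : ℕ => γ (k + 1) * z ^ (k + 1)) s ∧
    f z = z * exp (2 * s) := by
  refine ⟨_, (congrArg (HasSum · _) (funext fun k => by rw [γ]; push_cast; ring)).mp
    (((hasSum_taylorSeries_neg_log' hz).add (P_ser hz)).div_const 2), ?_⟩
  rw [mul_div_cancel₀ _ two_ne_zero, exp_add, f]
  simp [exp_neg, exp_log (n1 hz), div_eq_mul_inv, mul_assoc]

lemma P_diff : DifferentiableOn ℂ P (Metric.ball 0 1) := fun z hz => by
  obtain ⟨r, h1, h2⟩ := exists_between (mem_ball_zero_iff.1 hz)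
  have b : ∀ w ∈ Metric.ball (0 : ℂ) r, ‖w‖ < 1 := fun w hw => (mem_ball_zero_iff.1 hw).trans h2
  exact ((differentiableOn_tsum_of_summable_norm (geo.summable.div_const (1 - r))
    (fun j => (DifferentiableOn.fun_div (by fun_prop) (by unfold u; fun_prop)
      fun w hw => norm_pos_iff.1 (u0 (b w hw) j)).const_mul _) Metric.isOpen_ball
    fun j w hw => T_le' (b w hw) (mem_ball_zero_iff.1 hw).le h2 j).differentiableAt
      (Metric.isOpen_ball.mem_nhds (mem_ball_zero_iff.2 h1))).differentiableWithinAt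

lemma f_an : AnalyticOnNhd ℂ f (Metric.ball 0 1) :=
  ((DifferentiableOn.fun_div (by fun_prop) (by fun_prop)
    fun w hw => n1 (mem_ball_zero_iff.1 hw)).mul P_diff.cexp).analyticOnNhd Metric.isOpen_ball

lemma f_deriv : deriv f 0 = 1 := by
  have d := (P_diff.differentiableAt (Metric.ball_mem_nhds 0 one_pos)).hasDerivAt.cexp
  have d2 := ((hasDerivAt_id' (0 : ℂ)).fun_div ((hasDerivAt_id' 0).const_sub 1) (by simp)).fun_mul d
  refine d2.deriv.trans ?_
  simp [P]

lemma sid {i j k l : ℕ} (h1 : i ≤ j) (h2 : k ≤ l) (e : θ i + θ j = θ k + θ l) : i = k ∧ j = l := by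
  have mono : ∀ {i j : ℕ}, i ≤ j → θ j ≤ θ i := fun {i j} h => by
    rcases h.eq_or_lt with rfl | h
    · rfl
    · linarith [θ_lt h, θ0 i]
  have a : i = k := by
    rcases lt_trichotomy i k with h | h | h
    · linarith [θ_lt h, mono h2, θ0 i, θ0 j]
    · exact h
    · linarith [θ_lt h, mono h1, θ0 k, θ0 l]
  subst a
  refine ⟨rfl, ?_⟩
  rcases lt_trichotomy j l with h | h | h
  · linarith [θ_lt h, θ0 j]
  · exact h
  · linarith [θ_lt h, θ0 l]

lemma sidon (i j k l : ℕ) (e : x i * x j = x k * x l) : (i = k ∧ j = l) ∨ (i = l ∧ j = k) := by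
  have b : ∀ i j, -Real.pi < (I * θ i + I * θ j : ℂ).im ∧ (I * θ i + I * θ j : ℂ).im ≤ Real.pi :=
    fun i j => by
      simp only [add_im, mul_im, I_re, I_im, ofReal_re, ofReal_im]
      constructor <;> linarith [θ0 i, θ0 j, θ1 i, θ1 j, Real.pi_gt_three]
  simp only [x, ← exp_add] at e
  have e2 := congrArg im (exp_inj_of_neg_pi_lt_of_le_pi (b i j).1 (b i j).2 (b k l).1 (b k l).2 e)
  simp only [add_im, mul_im, I_re, I_im, ofReal_re, ofReal_im, zero_mul, one_mul, zero_add] at e2
  rcases le_total i j with h | h <;> rcases le_total k l with h' | h'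
  · exact Or.inl (sid h h' e2)
  · exact Or.inr (sid h h' (by linarith))
  · exact Or.inr (sid h h' (by linarith)).symm
  · exact Or.inl (sid h h' (by linarith)).symm

lemma stage {t m : ℕ} (ht : 3 ≤ t) (hm : m = 2 ^ t) {q : ℝ} (q0 : 0 < q) (hq : q ^ 2 = m) {e : ℝ}
    (he : e = 1 / 8 ^ (85 * m)) :
    (q / 64000 - 1) / 4 ≤ e * ∑' k : ℕ, ((k : ℝ) + 1) * ‖γ (k + 1)‖ * (1 - e) ^ (k + 1) := by
  have m8 : 8 ≤ m := by
    have := Nat.pow_le_pow_right (show 0 < 2 by norm_num) ht
    rw [hm]; omega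
  obtain ⟨lo, hlo⟩ : ∃ lo, 16 * m = lo + 121 := ⟨16 * m - 121, by omega⟩
  obtain ⟨hi, hhi⟩ : ∃ hi, hi = lo + m := ⟨_, rfl⟩
  have h1 : 17 * m = hi + 121 := by omega
  obtain ⟨N, hN⟩ : ∃ N, 85 * m = N + 1 := ⟨85 * m - 1, by omega⟩
  have e0 : 0 < e := by rw [he]; positivity
  obtain ⟨K, Ke, K1, xK⟩ : ∃ K : ℕ, K * e = 1 / 4 ∧ (1 : ℝ) ≤ K ∧ ∀ j ∈ Ico lo hi, x j ^ K = 1 := by
    refine ⟨2 * 8 ^ N, ?_, by exact_mod_cast Nat.succ_le_of_lt (by positivity), fun j hj => ?_⟩
    · rw [he, hN, pow_succ]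
      push_cast
      field_simp
      norm_num
    · obtain ⟨d, hd⟩ : ∃ d, N = 2 * (j + 121) + d :=
        ⟨N - 2 * (j + 121), by have := mem_Ico.1 hj; omega⟩
      rw [x, ← exp_nat_mul, ← exp_nat_mul_two_pi_mul_I (2 * 8 ^ d), hd, θ, pow_add, pow_mul]
      generalize j + 121 = n
      congr 1
      push_cast
      field_simp
  have e1 : e ≤ 1 / 4 := by nlinarith
  have win : ∀ j ∈ Ico lo hi, η j = e := fun j hj => by
    have := mem_Ico.1 hj
    have h17 : 5 * ell j = 85 * m := by
      rw [ell_block (j := j) (t := t) (by rw [← hm]; omega) (by rw [← hm]; omega), ← hm]; omega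
    rw [η, he, h17]
  have L := l1 (Ico lo hi) (K := K) (fun j => ‖lam j - 1‖ * x j / (lam j - 1)) x xK x1
    (fun j => by
      rw [norm_div, norm_mul, x1, norm_real, norm_norm, mul_one, div_self (norm_ne_zero_iff.2 (nu0 j))])
    (fun i j h => by rcases sidon i i j j (by rw [h]) with h | h <;> exact h.1) sidon q0
    (by rw [hq, Nat.card_Ico, hhi, Nat.add_sub_cancel_left])
  have bern : ∀ k : ℕ, k ≤ 2 * K → 1 / 2 ≤ (1 - e) ^ k := fun k hk => by
    have := one_add_mul_le_pow (a := -e) (by linarith) k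
    have h2 : (k : ℝ) ≤ 2 * K := by exact_mod_cast hk
    rw [← sub_eq_add_neg] at this
    nlinarith
  have key : ∀ k ∈ Ico K (2 * K), ‖∑ j ∈ Ico lo hi, ‖lam j - 1‖ * x j / (lam j - 1) * x j ^ k‖ /
      32000 - 1 ≤ k * ‖γ k‖ * (1 - e) ^ k := fun k hk => by
    obtain ⟨k1, k2⟩ := mem_Ico.1 hk
    have k3 : (K : ℝ) ≤ k := by exact_mod_cast k1
    have k4 : (k : ℝ) ≤ 2 * K := by exact_mod_cast k2.le
    have k0 : (0 : ℝ) < k := by linarith
    have s1 := (c_sum k).sum_add_tsum_nat_add hi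
    rw [← sum_range_add_sum_Ico _ (show lo ≤ hi by omega), ← c] at s1
    have s2 : ∑ j ∈ Ico lo hi, a j * lam j ^ k = (e / 1000 * (1 - e) ^ (k + 1) : ℝ) *
        ∑ j ∈ Ico lo hi, ‖lam j - 1‖ * x j / (lam j - 1) * x j ^ k := by
      rw [mul_sum]
      refine sum_congr rfl fun j hj => ?_
      have : lam j = (1 - e) * x j := by rw [lam, win j hj]; push_cast; rfl
      rw [a, win j hj]
      generalize lam j - 1 = ν
      rw [this, mul_pow]
      push_cast
      ring
    have s3 : ‖∑ j ∈ range lo, a j * lam j ^ k‖ ≤ 1 / k := by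
      refine (norm_sum_le _ _).trans ((sum_le_card_nsmul _ _ (1 / 8 ^ m / k : ℝ) fun j hj => ?_).trans ?_)
      · have p := η0 j
        have b1 : (1 - η j) ^ k ≤ 2 / (k * η j) ^ 2 := by
          refine (pow_le_pow_left₀ (η3 j) (Real.one_sub_le_exp_neg _) k).trans ?_
          rw [← Real.exp_nat_mul, mul_neg, Real.exp_neg, ← inv_div]
          exact inv_anti₀ (by positivity) (by
            simpa using Real.pow_div_factorial_le_exp (k * η j) (by positivity) 2)
        have b2 : 8 * 8 ^ m * e ≤ η j := by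
          have h16 : 2 ^ (t + 4) = 16 * m := by rw [pow_add, hm]; ring
          have hj2 : j + 121 < 2 ^ (t + 4) := by
            rw [h16]
            have := mem_range.1 hj
            omega
          have h17 := ell_dyadic hj2
          rw [h16] at h17
          clear hj2 h16
          rw [he, η, ← pow_succ', mul_one_div, div_le_div_iff₀ (by positivity) (by positivity),
            ← pow_add, one_mul]
          exact pow_le_pow_right₀ (by norm_num) (by omega)
        refine (al j k).trans ((mul_le_mul_of_nonneg_left b1 p.le).trans ?_)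
        have p8 : (0 : ℝ) < 8 ^ m := by positivity
        rw [div_div, ← mul_div_assoc, div_le_div_iff₀ (by positivity) (by positivity)]
        have b3 : 2 * 8 ^ m ≤ k * η j := by nlinarith [mul_le_mul k3 b2 (by positivity) k0.le]
        nlinarith [mul_le_mul_of_nonneg_left b3 (mul_pos k0 p).le]
      · rw [card_range, nsmul_eq_mul, ← mul_div_assoc, mul_one_div]
        refine div_le_div_of_nonneg_right ((div_le_one (by positivity)).2 ?_) k0.le
        have b1 : m < 2 ^ m := Nat.lt_two_pow_self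
        have b2 : 8 ^ m = 4 ^ m * 2 ^ m := Nat.mul_pow 4 2 m
        have b3 : 4 ^ 2 ≤ 4 ^ m := Nat.pow_le_pow_right (by norm_num) (by omega)
        exact_mod_cast (by nlinarith : lo ≤ 8 ^ m)
    have s4 : ‖∑' i, a (i + hi) * lam (i + hi) ^ k‖ ≤ e * (8 / 7) :=
      tsum_of_norm_bounded (geo.mul_left e) fun i => (al' _ k).trans (by
        rw [η, he, one_div_pow, div_mul_div_comm, ← pow_add, one_mul]
        exact one_div_le_one_div_of_le (by positivity) (pow_le_pow_right₀ (by norm_num)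
          (by have := ell_gt (i + hi); omega)))
    rw [s2] at s1
    generalize ∑ j ∈ Ico lo hi, ‖lam j - 1‖ * x j / (lam j - 1) * x j ^ k = S at s1 ⊢
    have s5 : e / 1000 * (1 - e) ^ (k + 1) * ‖S‖ ≤ 2 * ‖γ k‖ + 1 / k + 1 / k + e * (8 / 7) := by
      have : ((e / 1000 * (1 - e) ^ (k + 1) : ℝ) : ℂ) * S = 2 * γ k - 1 / k -
        ∑ j ∈ range lo, a j * lam j ^ k - ∑' i, a (i + hi) * lam (i + hi) ^ k := by
        rw [γ, ← s1]; ring
      have b := congrArg norm this
      rw [norm_mul, norm_real, Real.norm_of_nonneg (by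
        have := bern (k + 1) k2; positivity)] at b
      rw [b]
      refine (norm_sub_le _ _).trans (add_le_add ((norm_sub_le _ _).trans
        (add_le_add ((norm_sub_le _ _).trans (le_of_eq ?_)) s3)) s4)
      simp
    have s6 := mul_le_mul_of_nonneg_left s5 k0.le
    rw [mul_add, mul_add, mul_add, mul_one_div_cancel k0.ne'] at s6
    have b1 := bern (k + 1) k2
    have b2 := bern k k2.le
    have b3 : 1 / 4 ≤ k * e := by nlinarith
    have b4 : k * e ≤ 1 / 2 := by nlinarith
    have b5 := mul_le_mul_of_nonneg_right (mul_le_mul b3 b1 (by norm_num) (by positivity))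
      (norm_nonneg S)
    nlinarith only [s6, b4, b5,
      mul_le_mul_of_nonneg_left b2 (mul_nonneg k0.le (norm_nonneg (γ k)))]
  have sm : Summable fun k : ℕ => k * ‖γ k‖ * (1 - e) ^ k := by
    refine Summable.of_nonneg_of_le (fun k => by have : 0 ≤ 1 - e := by linarith
                                                 positivity) (fun k => ?_)
      ((hasSum_coe_mul_geometric_of_norm_lt_one (r := 1 - e) (by
        rw [Real.norm_of_nonneg (by linarith)]; linarith)).summable.mul_left 2)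
    have b1 : ‖γ k‖ ≤ 2 := by
      have : ‖(1 / k : ℂ)‖ ≤ 1 := by
        rw [norm_div, norm_one, Complex.norm_natCast, one_div]; exact Nat.cast_inv_le_one k
      rw [γ, norm_div, Complex.norm_two]
      linarith [norm_add_le (1 / k : ℂ) (c k), c_le k]
    nlinarith [mul_le_mul_of_nonneg_left b1 (mul_nonneg (Nat.cast_nonneg k)
      (pow_nonneg (show 0 ≤ 1 - e by linarith) k))]
  have t1 := (sum_le_sum key).trans (sm.sum_le_tsum _ fun k _ => by
    have : 0 ≤ 1 - e := by linarith
    positivity)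
  rw [sm.tsum_eq_zero_add, sum_sub_distrib, ← sum_div, sum_const, Nat.card_Ico,
    show 2 * K - K = K by omega] at t1
  push_cast at t1
  rw [zero_mul, zero_mul, zero_add, nsmul_eq_mul, mul_one] at t1
  nlinarith only [mul_le_mul_of_nonneg_left t1 e0.le, mul_le_mul_of_nonneg_left L e0.le, Ke,
    congrArg (· * q) Ke]

end Pool.Agent.H60.LC
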